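import Pool.Agent.H74.OVL.St

/-!
Ovoids of `PG(3, 2^h)`, layer 1: L6 (all slots) from EP and the twisted weak FACT 2 (L5k).
-/

set_option autoImplicit false
set_option linter.unusedSectionVars false

namespace Pool.Agent.H86.OVL

open Pool.OVL Finset Function

lemma comb {F : Type} [Field F] (G : Fin 4 → Fin 4 → Fin 4 → F)
    (s1 : ∀ a b c, G a b c = G b a c) (s2 : ∀ a b c, G a b c = G a c b)
    (g0 : ∀ a b, G a b b = 0) (g1 : ∀ a, G a 0 3 = G a 1 2) (a b c : Fin 4) : G a b c = 0 := by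
  have g2 : ∀ a b, G b b a = 0 := fun a b => by rw [s2, s1]; exact g0 a b
  have g3 : ∀ a b, G b a b = 0 := fun a b => by rw [s1]; exact g0 a b
  have t0 : G 0 1 2 = 0 := by rw [← g1]; exact g2 _ _
  have t1 : G 1 0 3 = 0 := by rw [g1]; exact g2 _ _
  have t2 : G 2 0 3 = 0 := by rw [g1]; exact g3 _ _
  have t3 : G 3 1 2 = 0 := by rw [← g1]; exact g3 _ _
  have sym : ∀ p q r, G p q r = 0 → G q p r = 0 ∧ G p r q = 0 ∧ G q r p = 0 ∧ G r p q = 0 ∧
      G r q p = 0 := by
    intro p q r h0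
    have e1 : G q p r = 0 := by rw [s1]; exact h0
    have e2 : G p r q = 0 := by rw [s2]; exact h0
    have e3 : G q r p = 0 := by rw [s2]; exact e1
    have e4 : G r p q = 0 := by rw [s1]; exact e2
    have e5 : G r q p = 0 := by rw [s2]; exact e4
    exact ⟨e1, e2, e3, e4, e5⟩
  obtain ⟨a1, a2, a3, a4, a5⟩ := sym _ _ _ t0
  obtain ⟨b1, b2, b3, b4, b5⟩ := sym _ _ _ t1
  obtain ⟨c1, c2, c3, c4, c5⟩ := sym _ _ _ t2
  obtain ⟨d1, d2, d3, d4, d5⟩ := sym _ _ _ t3
  fin_cases a <;> fin_cases b <;> fin_cases c <;>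
    first
      | exact g0 _ _
      | exact g2 _ _
      | exact g3 _ _
      | assumption

/-- the three other letters -/
lemma others {F : Type} [Field F] (a : Fin 4) : ∃ b c d : Fin 4, ∀ y : Fin 4 → F,
    y 0 * y 1 * y 2 * y 3 = y a * y b * y c * y d := by
  fin_cases a
  · exact ⟨1, 2, 3, fun y => rfl⟩
  · exact ⟨0, 2, 3, fun y => by simp only [Fin.mk_one]; ring⟩
  · exact ⟨0, 1, 3, fun y => by show _ = y 2 * y 0 * y 1 * y 3; ring⟩
  · exact ⟨0, 1, 2, fun y => by show _ = y 3 * y 0 * y 1 * y 2; ring⟩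

/-- `y 1 y 2 y 3 y j` for `j ≠ 0` -/
lemma others0 {F : Type} [Field F] {j : Fin 4} (hj : j ≠ 0) : ∃ l m : Fin 4, ∀ y : Fin 4 → F,
    y 1 * y 2 * y 3 * y j = (y j * y j) * (y l * y m) := by
  fin_cases j
  · exact absurd rfl hj
  · exact ⟨2, 3, fun y => by simp only [Fin.mk_one]; ring⟩
  · exact ⟨1, 3, fun y => by show _ * y 2 = y 2 * y 2 * _; ring⟩
  · exact ⟨1, 2, fun y => by show _ * y 3 = y 3 * y 3 * _; ring⟩

section
variable {F : Type} [Field F] [Fintype F] [CharP F 2] {h : ℕ} [NeZero h]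
  {Om : Type} [Fintype Om] {y : Om → Fin 4 → F}

/-- product of the four letters -/
def D (v : Fin 4 → F) : F := v 0 * v 1 * v 2 * v 3

lemma zo (h2 : 2 ≤ h) : (0 : ZMod h) ≠ 1 := by
  have : Fact (1 < h) := ⟨h2⟩
  exact zero_ne_one

lemma ne_succ (h2 : 2 ≤ h) (k : ZMod h) : k + 1 ≠ k := by
  intro e
  have : (1 : ZMod h) = 0 := by
    have := congrArg (fun t => t - k) e
    simpa using this
  exact zo h2 this.symm

/-- the symmetric form of the trace -/
lemma TT_eq (ep : EPStmt) (hy : Ovd F h Om y) (i : Fin 4) (w w' : ZMod h → Fin 4) :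
    TT y i w w' = ∑ o, D (y o) * fr (1 : ZMod h) (y o i) *
      (wx {0, 1} w (y o) * wx {0, 1} w' (y o)) := by
  have h2 : 2 ≤ h := by have := hy.hh; omega
  have e := ep F h Om y hy 0 0 3 i w w'
  rw [zero_add] at e
  have : TT y i w w' = ∑ o, fr (1 : ZMod h) (y o 0) * fr (1 : ZMod h) (y o 3) *
      fr (1 : ZMod h) (y o i) * (wx {0, 1} w (y o) * wx {0, 1} w' (y o)) +
      ∑ o, D (y o) * fr (1 : ZMod h) (y o i) * (wx {0, 1} w (y o) * wx {0, 1} w' (y o)) := by
    rw [← sum_add_distrib]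
    refine sum_congr rfl fun o _ => ?_
    rw [fr_one_idx h2 (y o 0), fr_one_idx h2 (y o 3)]
    unfold Qf D
    ring
  rw [this, e, zero_add]

/-- equal letters at the last digit -/
lemma base (ep : EPStmt) (hy : Ovd F h Om y) {k : ZMod h} (hk0 : k ≠ 0) (hk1 : k ≠ 1)
    (hk : k + 1 = 0) (z a : Fin 4) (w w' : ZMod h → Fin 4) :
    ∑ o, D (y o) * fr (1 : ZMod h) (y o z) * y o a *
      (wx (insert k {0, 1}) w (y o) * wx (insert k {0, 1}) w' (y o)) = 0 := by
  have h2 : 2 ≤ h := by have := hy.hh; omega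
  obtain ⟨b, c, d, hb⟩ := others (F := F) a
  rw [← ep F h Om y hy k b c d (update w 1 z) (update w' 1 a)]
  refine sum_congr rfl fun o _ => ?_
  have h1 : (1 : ZMod h) ∉ ({k, k + 1} : Finset (ZMod h)) := by
    rw [hk]
    simp only [mem_insert, mem_singleton, not_or]
    exact ⟨fun e => hk1 e.symm, fun e => zo h2 e.symm⟩
  have hK : (insert 1 {k, k + 1} : Finset (ZMod h)) = insert k {0, 1} := by
    rw [hk]; ext j; simp only [mem_insert, mem_singleton]; tauto
  rw [wx_insert h1 (update w 1 z), wx_insert h1 (update w' 1 a), update_self, update_self,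
    wx_update (mem_insert_self _ _), wx_update (mem_insert_self _ _), hK, hk]
  simp only [fr_zero_idx]
  rw [fr_one_idx h2 (y o a)]
  unfold D
  rw [hb]
  ring

/-- the digits removed -/
def K2 (k : ZMod h) : Finset (ZMod h) := insert (k + 1) (insert k {0, 1})

lemma wx_up2 (h2 : 2 ≤ h) {k : ZMod h} (hk0 : k ≠ 0) (hk1 : k ≠ 1) (hk : k + 1 ≠ 0)
    (w : ZMod h → Fin 4) (a b : Fin 4) (v : Fin 4 → F) :
    wx {0, 1} (update (update w k a) (k + 1) b) v =
      fr k (v a) * (fr (k + 1) (v b) * wx (K2 k) w v) := by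
  have hkl := ne_succ h2 k
  have h1 : k ∉ ({0, 1} : Finset (ZMod h)) := by
    simp only [mem_insert, mem_singleton, not_or]; exact ⟨hk0, hk1⟩
  have h3 : k + 1 ∉ (insert k {0, 1} : Finset (ZMod h)) := by
    simp only [mem_insert, mem_singleton, not_or]
    exact ⟨hkl, hk, fun e => hk0 (by simpa using e)⟩
  rw [wx_insert h1, wx_insert h3, update_of_ne hkl.symm, update_self, update_self,
    wx_update (mem_insert_self _ _), wx_update (mem_insert_of_mem (mem_insert_self _ _))]
  rfl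

/-- three letters at the digit `k + 1`, none at `k` -/
lemma step (ep : EPStmt) (hy : Ovd F h Om y) {k : ZMod h} (hk0 : k ≠ 0) (hk1 : k ≠ 1)
    (hk : k + 1 ≠ 0)
    (ia : ∀ (i : Fin 4) (w w' : ZMod h → Fin 4), w (k + 1) = w' (k + 1) → TT y i w w' = 0)
    (ib : ∀ (i : Fin 4) (w w' : ZMod h → Fin 4),
      TT y i (update w (k + 1) 0) (update w' (k + 1) 3) =
        TT y i (update w (k + 1) 1) (update w' (k + 1) 2))
    (z a b c : Fin 4) (w w' : ZMod h → Fin 4) :
    ∑ o, D (y o) * fr (1 : ZMod h) (y o z) *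
      (fr (k + 1) (y o a) * fr (k + 1) (y o b) * fr (k + 1) (y o c) *
        (wx (K2 k) w (y o) * wx (K2 k) w' (y o))) = 0 := by
  have h2 : 2 ≤ h := by have := hy.hh; omega
  have form : ∀ a b c, ∑ o, D (y o) * fr (1 : ZMod h) (y o z) *
      (fr (k + 1) (y o a) * fr (k + 1) (y o b) * fr (k + 1) (y o c) *
        (wx (K2 k) w (y o) * wx (K2 k) w' (y o))) =
      TT y z (update (update w k a) (k + 1) b) (update (update w' k a) (k + 1) c) := by
    intro a b c
    rw [TT_eq ep hy]
    refine sum_congr rfl fun o _ => ?_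
    rw [wx_up2 h2 hk0 hk1 hk, wx_up2 h2 hk0 hk1 hk, ← fr_succ hy.cq h2 k (y o a)]
    ring
  exact comb (fun a b c => ∑ o, D (y o) * fr (1 : ZMod h) (y o z) *
      (fr (k + 1) (y o a) * fr (k + 1) (y o b) * fr (k + 1) (y o c) *
        (wx (K2 k) w (y o) * wx (K2 k) w' (y o))))
    (fun a b c => sum_congr rfl fun o _ => by ring)
    (fun a b c => sum_congr rfl fun o _ => by ring)
    (fun a b => by
      show _ = (0 : F)
      rw [form]; exact ia z _ _ (by simp))
    (fun a => by
      show _ = (_ : F)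
      rw [form, form]; exact ib z (update w k a) (update w' k a)) a b c

/-- the trace relation at the digit `k`, `k + 1 ≠ 0` -/
lemma tra_mid (ep : EPStmt) (l5k : L5kStmt) (hy : Ovd F h Om y) {k : ZMod h} (hk0 : k ≠ 0)
    (hk1 : k ≠ 1) (hk : k + 1 ≠ 0)
    (st : ∀ (z a b c : Fin 4) (w w' : ZMod h → Fin 4),
      ∑ o, D (y o) * fr (1 : ZMod h) (y o z) *
        (fr (k + 1) (y o a) * fr (k + 1) (y o b) * fr (k + 1) (y o c) *
          (wx (K2 k) w (y o) * wx (K2 k) w' (y o))) = 0)
    (z : Fin 4) (w w' : ZMod h → Fin 4) :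
    ∑ o, D (y o) * fr (1 : ZMod h) (y o z) * (fr k (Qf (y o)) *
      (wx (insert k {0, 1}) w (y o) * wx (insert k {0, 1}) w' (y o))) = 0 := by
  have h2 : 2 ≤ h := by have := hy.hh; omega
  have hkl := ne_succ h2 k
  have hl1 : k + 1 ≠ 1 := fun e => hk0 (by simpa using e)
  obtain ⟨c, hc⟩ := l5k F h Om y hy k (update (update w 0 0) 1 z)
  have n0 : (0 : ZMod h) ∉ ({k, k + 1} : Finset (ZMod h)) := by
    simp only [mem_insert, mem_singleton, not_or]
    exact ⟨fun e => hk0 e.symm, fun e => hk e.symm⟩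
  have n1 : (1 : ZMod h) ∉ (insert 0 {k, k + 1} : Finset (ZMod h)) := by
    simp only [mem_insert, mem_singleton, not_or]
    exact ⟨fun e => zo h2 e.symm, fun e => hk1 e.symm, fun e => hl1 e.symm⟩
  have hK : (insert 1 (insert 0 {k, k + 1}) : Finset (ZMod h)) = K2 k := by
    unfold K2; ext j; simp only [mem_insert, mem_singleton]; tauto
  have n3 : k + 1 ∉ (insert k {0, 1} : Finset (ZMod h)) := by
    simp only [mem_insert, mem_singleton, not_or]
    exact ⟨hkl, hk, hl1⟩
  have ex : ∀ (u : ZMod h → Fin 4) (v : Fin 4 → F), wx {k, k + 1} u v =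
      v (u 0) * (fr (1 : ZMod h) (v (u 1)) * wx (K2 k) u v) := by
    intro u v
    rw [wx_insert n0, wx_insert n1, hK, fr_zero_idx]
  have exw : ∀ v : Fin 4 → F, wx {k, k + 1} (update (update w 0 0) 1 z) v =
      v 0 * (fr (1 : ZMod h) (v z) * wx (K2 k) w v) := by
    intro v
    rw [ex, update_self, update_of_ne (zo h2), update_self, wx_update (by simp [K2]),
      wx_update (by simp [K2])]
  have main : ∀ o, D (y o) * fr (1 : ZMod h) (y o z) * (fr k (Qf (y o)) *
      (wx (insert k {0, 1}) w (y o) * wx (insert k {0, 1}) w' (y o))) =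
      ∑ i, ∑ v' : ZMod h → Fin 4, c i v' * ((y o 1 * y o 2 * y o 3 * y o (v' 0)) *
        fr (1 : ZMod h) (y o (v' 1)) *
        (fr (k + 1) (y o i) * fr (k + 1) (y o (w (k + 1))) * fr (k + 1) (y o (w' (k + 1))) *
          (wx (K2 k) v' (y o) * wx (K2 k) w' (y o)))) := by
    intro o
    have e := hc o
    rw [exw] at e
    rw [wx_insert n3 w, wx_insert n3 w']
    have e2 : D (y o) * fr (1 : ZMod h) (y o z) * (fr k (Qf (y o)) *
      (fr (k + 1) (y o (w (k + 1))) * wx (insert (k + 1) (insert k {0, 1})) w (y o) *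
        (fr (k + 1) (y o (w' (k + 1))) * wx (insert (k + 1) (insert k {0, 1})) w' (y o)))) =
        (y o 1 * y o 2 * y o 3 * (fr (k + 1) (y o (w (k + 1))) *
          fr (k + 1) (y o (w' (k + 1))) * wx (K2 k) w' (y o))) *
        (fr k (Qf (y o)) * (y o 0 * (fr (1 : ZMod h) (y o z) * wx (K2 k) w (y o)))) := by
      unfold D K2; ring
    rw [e2, e, mul_sum]
    refine sum_congr rfl fun i _ => ?_
    rw [mul_sum]
    refine sum_congr rfl fun v' _ => ?_
    rw [ex]
    ring
  rw [sum_congr rfl fun o _ => main o, sum_comm]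
  refine sum_eq_zero fun i _ => ?_
  rw [sum_comm]
  refine sum_eq_zero fun v' _ => ?_
  rw [← mul_sum]
  apply mul_eq_zero_of_right
  by_cases hv : v' 0 = 0
  · rw [← st (v' 1) i (w (k + 1)) (w' (k + 1)) v' w']
    refine sum_congr rfl fun o _ => ?_
    rw [hv]
    unfold D
    ring
  · obtain ⟨l, m, hlm⟩ := others0 (F := F) hv
    rw [← ep F h Om y hy k i (w (k + 1)) (w' (k + 1)) (update (update v' 0 l) 1 (v' 1))
      (update (update w' 0 m) 1 (v' 0))]
    refine sum_congr rfl fun o _ => ?_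
    rw [ex, ex, update_self, update_self, update_of_ne (zo h2), update_of_ne (zo h2),
      update_self, update_self, wx_update (by simp [K2]), wx_update (by simp [K2]),
      wx_update (by simp [K2]), wx_update (by simp [K2]), hlm, fr_one_idx h2 (y o (v' 0))]
    ring

/-- the trace relation at the last digit -/
lemma tra_last (ep : EPStmt) (l5k : L5kStmt) (hy : Ovd F h Om y) {k : ZMod h} (hk0 : k ≠ 0)
    (hk1 : k ≠ 1) (hk : k + 1 = 0) (z : Fin 4) (w w' : ZMod h → Fin 4) :
    ∑ o, D (y o) * fr (1 : ZMod h) (y o z) * (fr k (Qf (y o)) *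
      (wx (insert k {0, 1}) w (y o) * wx (insert k {0, 1}) w' (y o))) = 0 := by
  have h2 : 2 ≤ h := by have := hy.hh; omega
  obtain ⟨c, hc⟩ := l5k F h Om y hy k (update w 1 z)
  have n1 : (1 : ZMod h) ∉ ({k, k + 1} : Finset (ZMod h)) := by
    rw [hk]
    simp only [mem_insert, mem_singleton, not_or]
    exact ⟨fun e => hk1 e.symm, fun e => zo h2 e.symm⟩
  have hK : (insert 1 {k, k + 1} : Finset (ZMod h)) = insert k {0, 1} := by
    rw [hk]; ext j; simp only [mem_insert, mem_singleton]; tauto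
  have ex : ∀ (u : ZMod h → Fin 4) (v : Fin 4 → F), wx {k, k + 1} u v =
      fr (1 : ZMod h) (v (u 1)) * wx (insert k {0, 1}) u v := by
    intro u v
    rw [wx_insert n1, hK]
  have main : ∀ o, D (y o) * fr (1 : ZMod h) (y o z) * (fr k (Qf (y o)) *
      (wx (insert k {0, 1}) w (y o) * wx (insert k {0, 1}) w' (y o))) =
      ∑ i, ∑ v' : ZMod h → Fin 4, c i v' * (D (y o) * fr (1 : ZMod h) (y o (v' 1)) * y o i *
          (wx (insert k {0, 1}) v' (y o) * wx (insert k {0, 1}) w' (y o))) := by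
    intro o
    have e := hc o
    rw [ex, update_self, wx_update (mem_insert_of_mem (by simp))] at e
    have e2 : D (y o) * fr (1 : ZMod h) (y o z) * (fr k (Qf (y o)) *
      (wx (insert k {0, 1}) w (y o) * wx (insert k {0, 1}) w' (y o))) =
        (D (y o) * wx (insert k {0, 1}) w' (y o)) *
        (fr k (Qf (y o)) * (fr (1 : ZMod h) (y o z) * wx (insert k {0, 1}) w (y o))) := by
      ring
    rw [e2, e, mul_sum]
    refine sum_congr rfl fun i _ => ?_
    rw [mul_sum]
    refine sum_congr rfl fun v' _ => ?_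
    rw [ex, hk, fr_zero_idx]
    ring
  rw [sum_congr rfl fun o _ => main o, sum_comm]
  refine sum_eq_zero fun i _ => ?_
  rw [sum_comm]
  refine sum_eq_zero fun v' _ => ?_
  rw [← mul_sum]
  apply mul_eq_zero_of_right
  exact base ep hy hk0 hk1 hk (v' 1) i v' w'

/-- from the sums to the trace form -/
lemma tra_of (ep : EPStmt) (hy : Ovd F h Om y) {k : ZMod h} (hk0 : k ≠ 0) (hk1 : k ≠ 1)
    (i : Fin 4) (w w' : ZMod h → Fin 4)
    (e : ∑ o, D (y o) * fr (1 : ZMod h) (y o i) * (fr k (Qf (y o)) *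
      (wx (insert k {0, 1}) w (y o) * wx (insert k {0, 1}) w' (y o))) = 0) :
    TT y i (update w k 0) (update w' k 3) = TT y i (update w k 1) (update w' k 2) := by
  have h1 : k ∉ ({0, 1} : Finset (ZMod h)) := by
    simp only [mem_insert, mem_singleton, not_or]; exact ⟨hk0, hk1⟩
  have ex : ∀ (u : ZMod h → Fin 4) (a : Fin 4) (v : Fin 4 → F), wx {0, 1} (update u k a) v =
      fr k (v a) * wx (insert k {0, 1}) u v := by
    intro u a v
    rw [wx_insert h1, update_self, wx_update (mem_insert_self _ _)]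
  have e3 : TT y i (update w k 0) (update w' k 3) + TT y i (update w k 1) (update w' k 2) = 0 := by
    rw [← e, TT_eq ep hy, TT_eq ep hy, ← sum_add_distrib]
    refine sum_congr rfl fun o _ => ?_
    rw [ex, ex, ex, ex]
    have : fr k (Qf (y o)) = fr k (y o 0) * fr k (y o 3) + fr k (y o 1) * fr k (y o 2) := by
      unfold Qf; rw [fr_add, fr_mul, fr_mul]
    rw [this]
    ring
  exact CharTwo.add_eq_zero.1 e3

/-- both statements at `k`, by downward induction -/
lemma all (ep : EPStmt) (l5k : L5kStmt) (hy : Ovd F h Om y) (n : ℕ) :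
    ∀ k : ZMod h, k.val + n + 1 = h → k ≠ 0 → k ≠ 1 →
      (∀ (i : Fin 4) (w w' : ZMod h → Fin 4), w k = w' k → TT y i w w' = 0) ∧
      (∀ (i : Fin 4) (w w' : ZMod h → Fin 4),
        TT y i (update w k 0) (update w' k 3) = TT y i (update w k 1) (update w' k 2)) := by
  have h2 : 2 ≤ h := by have := hy.hh; omega
  have : Fact (1 < h) := ⟨h2⟩
  induction n with
  | zero =>
      intro k hk hk0 hk1
      have hk' : k + 1 = 0 := by
        rw [← ZMod.val_eq_zero, ZMod.val_add, ZMod.val_one]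
        rw [show k.val + 1 = h by omega, Nat.mod_self]
      refine ⟨?_, fun i w w' => tra_of ep hy hk0 hk1 i w w' (tra_last ep l5k hy hk0 hk1 hk' i w w')⟩
      intro i w w' hw
      have h1 : k ∉ ({0, 1} : Finset (ZMod h)) := by
        simp only [mem_insert, mem_singleton, not_or]; exact ⟨hk0, hk1⟩
      rw [TT_eq ep hy, ← base ep hy hk0 hk1 hk' i (w k) w w']
      refine sum_congr rfl fun o _ => ?_
      rw [wx_insert h1 w, wx_insert h1 w', ← hw]
      have := fr_succ hy.cq h2 k (y o (w k))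
      rw [hk', fr_zero_idx] at this
      linear_combination (D (y o) * fr (1 : ZMod h) (y o i) * wx (insert k {0, 1}) w (y o) *
        wx (insert k {0, 1}) w' (y o)) * this
  | succ n ih =>
      intro k hk hk0 hk1
      have hv : (k + 1).val = k.val + 1 := by
        rw [ZMod.val_add, ZMod.val_one, Nat.mod_eq_of_lt (by omega)]
      have hk' : k + 1 ≠ 0 := by
        intro e
        rw [e, ZMod.val_zero] at hv
        omega
      obtain ⟨ia, ib⟩ := ih (k + 1) (by omega) hk' (fun e => hk0 (by simpa using e))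
      have st := step ep hy hk0 hk1 hk' ia ib
      refine ⟨?_, fun i w w' => tra_of ep hy hk0 hk1 i w w'
        (tra_mid ep l5k hy hk0 hk1 hk' st i w w')⟩
      intro i w w' hw
      have e := st i (w k) (w (k + 1)) (w' (k + 1)) w w'
      rw [TT_eq ep hy, ← e]
      refine sum_congr rfl fun o _ => ?_
      have e1 := wx_up2 h2 hk0 hk1 hk' w (w k) (w (k + 1)) (y o)
      have e2 := wx_up2 h2 hk0 hk1 hk' w' (w k) (w' (k + 1)) (y o)
      rw [update_eq_self, update_eq_self] at e1
      rw [hw, update_eq_self, update_eq_self] at e2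
      rw [e1, e2, hw, ← fr_succ hy.cq h2 k (y o (w' k))]
      ring

end

/-- **L6: all slots** -/
theorem l6 (ep : EPStmt) (_ : L3Stmt) (_ : L4Stmt) (l5k : L5kStmt) : L6Stmt := by
  intro F _ _ _ h _ Om _ y hy k hk0 hk1 i w w'
  have hlt := ZMod.val_lt k
  obtain ⟨a, b⟩ := all ep l5k hy (h - 1 - k.val) k (by omega) hk0 hk1
  exact ⟨a i w w', b i w w'⟩

end Pool.Agent.H86.OVL
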